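import Mathlib

namespace Pool.Agent.Results.MP_e77370_co.Q1

open Finset

/-- The quantity `M₁` of the problem (sizes `k 1, …, k t`). -/
def M1 (t q n : ℕ) (k : ℕ → ℕ) : ℤ :=
  (n.choose (k 1) : ℤ) - ∑ j ∈ range q, (((k t).choose j * (n - k t).choose (k 1 - j) : ℕ) : ℤ)
    + ∑ j ∈ Icc 2 t, (((n - k t).choose (k j - k t) : ℕ) : ℤ)

/-- The quantity `M₂` of the problem. -/
def M2 (t q n : ℕ) (k : ℕ → ℕ) : ℤ := ∑ j ∈ Icc 1 t, (((n - q).choose (k j - q) : ℕ) : ℤ)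

def fam : Finset (Finset (Fin 5)) := {{0, 1, 2}, {0, 1, 3}, {0, 2, 3}, {1, 2, 3}}

theorem result : ¬ ∀ (t q n : ℕ) (k : ℕ → ℕ) (F : ℕ → Finset (Finset (Fin n))),
    2 ≤ t → 1 ≤ q → (∀ i j, 1 ≤ i → i ≤ j → j ≤ t → k j ≤ k i) → q + 1 ≤ k t →
    k 1 + k 2 + 1 ≤ n + q →
    (∀ j ∈ Icc 1 t, (F j).Nonempty ∧ ∀ A ∈ F j, A.card = k j) →
    (∀ i ∈ Icc 1 t, ∀ j ∈ Icc 1 t, i ≠ j → ∀ A ∈ F i, ∀ B ∈ F j, q ≤ (A ∩ B).card) →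
    ∑ j ∈ Icc 1 t, ((F j).card : ℤ) ≤ max (M1 t q n k) (M2 t q n k) := by
  intro h
  have h1 := h 3 2 5 (fun _ => 3) (fun _ => fam) (by norm_num) (by norm_num)
    (fun _ _ _ _ _ => le_rfl) (by norm_num) (by norm_num)
    (fun _ _ => by decide) (fun _ _ _ _ _ => by decide)
  revert h1
  decide

end Pool.Agent.Results.MP_e77370_co.Q1
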